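import Pool.Agent.Helper56.LV.Dec
import Pool.Agent.Helper82.LV.Dec

/-!
# Project LV (MP_a499ba_nt), block A5: the deterministic decomposition, with A1 applied
-/

set_option autoImplicit false

namespace Pool.Agent.Helper56.LV

open Finset Pool.Agent.Helper11.LV

/-- A5: the deterministic decomposition (multiplicativity and triangle inequality) -/
theorem main_dec {f : ℕ → ℂ} (hf : MB f) {s : ℂ} {d : ℝ} (hd : 0 < d) (hd1 : d ≤ 1 / 4) (hs : s.re = 1 / 2 + d) {y : ℕ} {F : ℂ} {B : ℝ}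
    (hB : ∀ N : ℕ, ∑ k ∈ sS y N, (k : ℝ) ^ (-(1 / 2 : ℝ)) ≤ B)
    (hF : ∀ N : ℕ, 1 ≤ N → ‖∑ k ∈ sS y N, f k * (k : ℂ) ^ (-s) - F‖ ≤ (N : ℝ) ^ (-d) * B)
    {w : ℕ → ℂ} {g : ℂ} {G X : ℝ} (hg : ‖g‖ ≤ G) (hX : 1 ≤ X)
    (hw : ∀ n : ℕ, 1 ≤ n → ‖w n - g‖ ≤ G * ((n : ℝ) / X) ^ (d / 2)) {M N : ℕ} (hM : 1 ≤ M) (hMN : 2 * M ≤ N) :
    ‖∑ n ∈ Icc 1 N, f n * ((n : ℂ) ^ (-s) * w n) - g * F * ∑ m ∈ rS y 0 M, f m * (m : ℂ) ^ (-s) -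
      ∑ m ∈ rS y M N, f m * ((m : ℂ) ^ (-s) * ∑ k ∈ sS y (N / m), f k * ((k : ℂ) ^ (-s) * w (k * m)))‖ ≤
      2 * Real.sqrt M * G * B * (((M : ℝ) / X) ^ (d / 2) + (2 * (M : ℝ) / N) ^ d) :=
  main_dec_of hf hd hd1 hs hB hF hg hX hw hM hMN fun w => Pool.Agent.Helper82.LV.dec y N hf w

end Pool.Agent.Helper56.LV
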