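import Pool.Agent.Helper11.LV.Defs

/-!
# Project LV (MP_a499ba_nt), block A5: the deterministic decomposition
-/

set_option autoImplicit false

namespace Pool.Agent.Helper56.LV

open Finset Pool.Agent.Helper11.LV

theorem sum_inv_sqrt (M : ℕ) : ∑ m ∈ Icc 1 M, (m : ℝ) ^ (-(1 / 2 : ℝ)) ≤ 2 * Real.sqrt M := by
  induction M with
  | zero => simp
  | succ n ih =>
    rw [Finset.sum_Icc_succ_top (by omega)]
    have h1 : ((n + 1 : ℕ) : ℝ) ^ (-(1 / 2 : ℝ)) = 1 / Real.sqrt ((n + 1 : ℕ) : ℝ) := by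
      rw [Real.rpow_neg (by positivity), ← Real.sqrt_eq_rpow, one_div]
    have h2 : 0 < Real.sqrt ((n + 1 : ℕ) : ℝ) := Real.sqrt_pos.2 (by positivity)
    have h3 := Real.sqrt_nonneg (n : ℝ)
    have h4 : Real.sqrt ((n + 1 : ℕ) : ℝ) * Real.sqrt ((n + 1 : ℕ) : ℝ) = n + 1 := by
      rw [Real.mul_self_sqrt (by positivity)]
      push_cast
      ring
    have h5 : Real.sqrt (n : ℝ) * Real.sqrt (n : ℝ) = n := Real.mul_self_sqrt (by positivity)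
    have h6 : 1 / Real.sqrt ((n + 1 : ℕ) : ℝ) ≤ 2 * Real.sqrt ((n + 1 : ℕ) : ℝ) - 2 * Real.sqrt (n : ℝ) := by
      rw [div_le_iff₀ h2]
      nlinarith [sq_nonneg (Real.sqrt ((n + 1 : ℕ) : ℝ) - Real.sqrt (n : ℝ))]
    rw [h1]
    linarith

theorem norm_cp {s : ℂ} {d : ℝ} (hs : s.re = 1 / 2 + d) {n : ℕ} (hn : 1 ≤ n) : ‖(n : ℂ) ^ (-s)‖ = (n : ℝ) ^ (-(1 / 2 + d)) := by
  rw [Complex.norm_natCast_cpow_of_pos (by omega), Complex.neg_re, hs]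

/-- one rough `m` -/
theorem one_rough {f : ℕ → ℂ} (hf : MB f) {s : ℂ} {d : ℝ} (hd : 0 < d) (hs : s.re = 1 / 2 + d) {y : ℕ} {F : ℂ} {B : ℝ}
    (hB : ∀ N : ℕ, ∑ k ∈ sS y N, (k : ℝ) ^ (-(1 / 2 : ℝ)) ≤ B)
    (hF : ∀ N : ℕ, 1 ≤ N → ‖∑ k ∈ sS y N, f k * (k : ℂ) ^ (-s) - F‖ ≤ (N : ℝ) ^ (-d) * B)
    {w : ℕ → ℂ} {g : ℂ} {G X : ℝ} (hg : ‖g‖ ≤ G) (hX : 1 ≤ X)
    (hw : ∀ n : ℕ, 1 ≤ n → ‖w n - g‖ ≤ G * ((n : ℝ) / X) ^ (d / 2)) {M N m : ℕ} (hMN : 2 * M ≤ N) (hm : 1 ≤ m) (hmM : m ≤ M) :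
    ‖(∑ k ∈ sS y (N / m), f k * ((k : ℂ) ^ (-s) * w (k * m))) - g * F‖ ≤ G * B * (((M : ℝ) / X) ^ (d / 2) + (2 * (M : ℝ) / N) ^ d) := by
  have hG0 : 0 ≤ G := (norm_nonneg _).trans hg
  have hB0 : 0 ≤ B := (Finset.sum_nonneg fun k _ => by positivity).trans (hB 0)
  have hm0 : (0 : ℝ) < m := by exact_mod_cast hm
  have hM0 : (0 : ℝ) < M := by exact_mod_cast (by omega : 0 < M)
  have hN0 : (0 : ℝ) < N := by exact_mod_cast (by omega : 0 < N)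
  have hX0 : 0 < X := by linarith
  have hq1 : 1 ≤ N / m := by
    rw [Nat.one_le_div_iff (by omega)]
    omega
  set S : Finset ℕ := sS y (N / m) with hS
  have e1 : (∑ k ∈ S, f k * ((k : ℂ) ^ (-s) * w (k * m))) - g * F =
      (∑ k ∈ S, f k * ((k : ℂ) ^ (-s) * (w (k * m) - g))) + g * (∑ k ∈ S, f k * (k : ℂ) ^ (-s) - F) := by
    rw [mul_sub, Finset.mul_sum, ← sub_eq_zero]
    have : ∑ k ∈ S, f k * ((k : ℂ) ^ (-s) * w (k * m)) =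
        (∑ k ∈ S, f k * ((k : ℂ) ^ (-s) * (w (k * m) - g))) + ∑ k ∈ S, g * (f k * (k : ℂ) ^ (-s)) := by
      rw [← Finset.sum_add_distrib]
      apply Finset.sum_congr rfl
      intro k _
      ring
    rw [this]
    ring
  have b1 : ‖∑ k ∈ S, f k * ((k : ℂ) ^ (-s) * (w (k * m) - g))‖ ≤ G * B * ((M : ℝ) / X) ^ (d / 2) := by
    refine (norm_sum_le _ _).trans ?_
    have h1 : ∀ k ∈ S, ‖f k * ((k : ℂ) ^ (-s) * (w (k * m) - g))‖ ≤ G * ((M : ℝ) / X) ^ (d / 2) * (k : ℝ) ^ (-(1 / 2 : ℝ)) := by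
      intro k hk
      have hk1 : 1 ≤ k := (mem_sS.1 hk).1
      have hk0 : (0 : ℝ) < k := by exact_mod_cast hk1
      have hk1' : (1 : ℝ) ≤ k := by exact_mod_cast hk1
      rw [norm_mul, norm_mul, norm_cp hs hk1]
      have h2 := hw (k * m) (Nat.one_le_iff_ne_zero.2 (by positivity))
      have h3 : (((k * m : ℕ) : ℝ) / X) ^ (d / 2) ≤ (k : ℝ) ^ (d / 2) * ((M : ℝ) / X) ^ (d / 2) := by
        rw [← Real.mul_rpow (by positivity) (by positivity)]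
        apply Real.rpow_le_rpow (by positivity) _ (by positivity)
        push_cast
        rw [mul_div_assoc]
        apply mul_le_mul_of_nonneg_left _ hk0.le
        apply div_le_div_of_nonneg_right _ hX0.le
        exact_mod_cast hmM
      have h4 : (k : ℝ) ^ (-(1 / 2 + d)) * (k : ℝ) ^ (d / 2) ≤ (k : ℝ) ^ (-(1 / 2 : ℝ)) := by
        rw [← Real.rpow_add hk0]
        exact Real.rpow_le_rpow_of_exponent_le hk1' (by linarith)
      have h5 : 0 ≤ (k : ℝ) ^ (-(1 / 2 + d)) := by positivity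
      have h6 : 0 ≤ ((M : ℝ) / X) ^ (d / 2) := by positivity
      calc ‖f k‖ * ((k : ℝ) ^ (-(1 / 2 + d)) * ‖w (k * m) - g‖)
          ≤ 1 * ((k : ℝ) ^ (-(1 / 2 + d)) * (G * ((k : ℝ) ^ (d / 2) * ((M : ℝ) / X) ^ (d / 2)))) := by
            apply mul_le_mul (hf.le k) _ (by positivity) zero_le_one
            apply mul_le_mul_of_nonneg_left _ h5
            exact h2.trans (mul_le_mul_of_nonneg_left h3 hG0)
        _ = G * ((M : ℝ) / X) ^ (d / 2) * ((k : ℝ) ^ (-(1 / 2 + d)) * (k : ℝ) ^ (d / 2)) := by ring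
        _ ≤ _ := mul_le_mul_of_nonneg_left h4 (by positivity)
    refine (Finset.sum_le_sum h1).trans ?_
    rw [← Finset.mul_sum]
    calc G * ((M : ℝ) / X) ^ (d / 2) * ∑ k ∈ S, (k : ℝ) ^ (-(1 / 2 : ℝ)) ≤ G * ((M : ℝ) / X) ^ (d / 2) * B :=
          mul_le_mul_of_nonneg_left (hB _) (by positivity)
      _ = _ := by ring
  have b2 : ‖g * (∑ k ∈ S, f k * (k : ℂ) ^ (-s) - F)‖ ≤ G * B * (2 * (M : ℝ) / N) ^ d := by
    rw [norm_mul]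
    have h1 := hF (N / m) hq1
    have h2 : ((N / m : ℕ) : ℝ) ^ (-d) ≤ (2 * (M : ℝ) / N) ^ d := by
      have h3 : (N : ℝ) / (2 * M) ≤ ((N / m : ℕ) : ℝ) := by
        have h4 : N < m * (N / m) + m := by
          have := Nat.div_add_mod N m
          have := Nat.mod_lt N (by omega : 0 < m)
          omega
        have h5 : (N : ℝ) < m * ((N / m : ℕ) : ℝ) + m := by exact_mod_cast h4
        have h6 : (m : ℝ) ≤ M := by exact_mod_cast hmM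
        have h7 : 2 * (M : ℝ) ≤ N := by exact_mod_cast hMN
        have h8 : (1 : ℝ) ≤ ((N / m : ℕ) : ℝ) := by exact_mod_cast hq1
        rw [div_le_iff₀ (by positivity)]
        nlinarith
      have h9 : 0 < (N : ℝ) / (2 * M) := by positivity
      calc ((N / m : ℕ) : ℝ) ^ (-d) ≤ ((N : ℝ) / (2 * M)) ^ (-d) :=
            Real.rpow_le_rpow_of_nonpos h9 h3 (by linarith)
        _ = (2 * (M : ℝ) / N) ^ d := by
            rw [Real.rpow_neg h9.le, ← Real.inv_rpow h9.le, inv_div]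
    calc ‖g‖ * ‖∑ k ∈ S, f k * (k : ℂ) ^ (-s) - F‖ ≤ G * (((N / m : ℕ) : ℝ) ^ (-d) * B) :=
          mul_le_mul hg h1 (norm_nonneg _) hG0
      _ ≤ G * ((2 * (M : ℝ) / N) ^ d * B) := mul_le_mul_of_nonneg_left (mul_le_mul_of_nonneg_right h2 hB0) hG0
      _ = _ := by ring
  rw [e1]
  refine (norm_add_le _ _).trans ?_
  linarith

/-- A5 from A1 -/
theorem main_dec_of {f : ℕ → ℂ} (hf : MB f) {s : ℂ} {d : ℝ} (hd : 0 < d) (hd1 : d ≤ 1 / 4) (hs : s.re = 1 / 2 + d) {y : ℕ} {F : ℂ} {B : ℝ}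
    (hB : ∀ N : ℕ, ∑ k ∈ sS y N, (k : ℝ) ^ (-(1 / 2 : ℝ)) ≤ B)
    (hF : ∀ N : ℕ, 1 ≤ N → ‖∑ k ∈ sS y N, f k * (k : ℂ) ^ (-s) - F‖ ≤ (N : ℝ) ^ (-d) * B)
    {w : ℕ → ℂ} {g : ℂ} {G X : ℝ} (hg : ‖g‖ ≤ G) (hX : 1 ≤ X)
    (hw : ∀ n : ℕ, 1 ≤ n → ‖w n - g‖ ≤ G * ((n : ℝ) / X) ^ (d / 2)) {M N : ℕ} (hM : 1 ≤ M) (hMN : 2 * M ≤ N)
    (hdec : ∀ w : ℕ → ℂ, ∑ n ∈ Icc 1 N, f n * w n = ∑ m ∈ rS y 0 N, f m * ∑ k ∈ sS y (N / m), f k * w (k * m)) :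
    ‖∑ n ∈ Icc 1 N, f n * ((n : ℂ) ^ (-s) * w n) - g * F * ∑ m ∈ rS y 0 M, f m * (m : ℂ) ^ (-s) -
      ∑ m ∈ rS y M N, f m * ((m : ℂ) ^ (-s) * ∑ k ∈ sS y (N / m), f k * ((k : ℂ) ^ (-s) * w (k * m)))‖ ≤
      2 * Real.sqrt M * G * B * (((M : ℝ) / X) ^ (d / 2) + (2 * (M : ℝ) / N) ^ d) := by
  have hG0 : 0 ≤ G := (norm_nonneg _).trans hg
  have hB0 : 0 ≤ B := (Finset.sum_nonneg fun k _ => by positivity).trans (hB 0)
  set T : ℕ → ℂ := fun m => ∑ k ∈ sS y (N / m), f k * ((k : ℂ) ^ (-s) * w (k * m)) with hT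
  set Q : ℝ := ((M : ℝ) / X) ^ (d / 2) + (2 * (M : ℝ) / N) ^ d with hQ
  have hQ0 : 0 ≤ Q := by positivity
  have e1 : ∑ n ∈ Icc 1 N, f n * ((n : ℂ) ^ (-s) * w n) = ∑ m ∈ rS y 0 N, f m * ((m : ℂ) ^ (-s) * T m) := by
    rw [hdec fun n => (n : ℂ) ^ (-s) * w n]
    apply Finset.sum_congr rfl
    intro m _
    congr 1
    rw [hT, Finset.mul_sum]
    apply Finset.sum_congr rfl
    intro k _
    push_cast
    rw [Complex.natCast_mul_natCast_cpow]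
    ring
  have e2 : rS y 0 N = rS y 0 M ∪ rS y M N := by
    ext n
    simp only [Finset.mem_union, mem_rS]
    constructor
    · rintro ⟨h1, h2, h3⟩
      rcases le_or_gt n M with h | h
      · exact Or.inl ⟨h1, h, h3⟩
      · exact Or.inr ⟨h, h2, h3⟩
    · rintro (⟨h1, h2, h3⟩ | ⟨h1, h2, h3⟩)
      · exact ⟨h1, by omega, h3⟩
      · exact ⟨by omega, h2, h3⟩
  have e3 : Disjoint (rS y 0 M) (rS y M N) := by
    rw [Finset.disjoint_left]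
    intro n h1 h2
    have := (mem_rS.1 h1).2.1
    have := (mem_rS.1 h2).1
    omega
  have e4 : ∑ n ∈ Icc 1 N, f n * ((n : ℂ) ^ (-s) * w n) - g * F * ∑ m ∈ rS y 0 M, f m * (m : ℂ) ^ (-s) -
      ∑ m ∈ rS y M N, f m * ((m : ℂ) ^ (-s) * T m) = ∑ m ∈ rS y 0 M, f m * ((m : ℂ) ^ (-s) * (T m - g * F)) := by
    rw [e1, e2, Finset.sum_union e3, Finset.mul_sum, add_sub_right_comm, add_sub_cancel_right, ← Finset.sum_sub_distrib]
    apply Finset.sum_congr rfl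
    intro m _
    ring
  rw [e4]
  refine (norm_sum_le _ _).trans ?_
  have h1 : ∀ m ∈ rS y 0 M, ‖f m * ((m : ℂ) ^ (-s) * (T m - g * F))‖ ≤ G * B * Q * (m : ℝ) ^ (-(1 / 2 : ℝ)) := by
    intro m hm
    obtain ⟨hm1, hm2, -⟩ := mem_rS.1 hm
    have hm1' : 1 ≤ m := hm1
    have hmr : (1 : ℝ) ≤ m := by exact_mod_cast hm1'
    have h2 := one_rough hf hd hs hB hF hg hX hw hMN hm1' hm2
    rw [norm_mul, norm_mul, norm_cp hs hm1']
    have h3 : (m : ℝ) ^ (-(1 / 2 + d)) ≤ (m : ℝ) ^ (-(1 / 2 : ℝ)) := Real.rpow_le_rpow_of_exponent_le hmr (by linarith)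
    calc ‖f m‖ * ((m : ℝ) ^ (-(1 / 2 + d)) * ‖T m - g * F‖) ≤ 1 * ((m : ℝ) ^ (-(1 / 2 : ℝ)) * (G * B * Q)) := by
          apply mul_le_mul (hf.le m) _ (by positivity) zero_le_one
          exact mul_le_mul h3 h2 (norm_nonneg _) (by positivity)
      _ = _ := by ring
  refine (Finset.sum_le_sum h1).trans ?_
  rw [← Finset.mul_sum]
  have h4 : ∑ m ∈ rS y 0 M, (m : ℝ) ^ (-(1 / 2 : ℝ)) ≤ 2 * Real.sqrt M := by
    refine (Finset.sum_le_sum_of_subset_of_nonneg (fun m hm => ?_) fun m _ _ => by positivity).trans (sum_inv_sqrt M)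
    obtain ⟨hm1, hm2, -⟩ := mem_rS.1 hm
    exact Finset.mem_Icc.2 ⟨hm1, hm2⟩
  calc G * B * Q * ∑ m ∈ rS y 0 M, (m : ℝ) ^ (-(1 / 2 : ℝ)) ≤ G * B * Q * (2 * Real.sqrt M) :=
        mul_le_mul_of_nonneg_left h4 (by positivity)
    _ = _ := by ring

end Pool.Agent.Helper56.LV
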