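import Mathlib

/-!
The example `θ(u) = u sin(u^(1/3))` for the dichotomy of modulated sums: two derivatives on
`u > 0`, `θ''(u) log u → 0`, `|θ'| ≤ 1` at arbitrarily large `u`, and `θ'` unbounded.
-/

namespace Pool.Agent.Helper56.LV

open Real Filter Topology

/-- the first derivative of `u sin(u^(1/3))` -/
private noncomputable def th1 (u : ℝ) : ℝ :=
  Real.sin (u ^ (1 / 3 : ℝ)) + u ^ (1 / 3 : ℝ) / 3 * Real.cos (u ^ (1 / 3 : ℝ))

/-- the second derivative of `u sin(u^(1/3))` -/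
private noncomputable def th2 (u : ℝ) : ℝ :=
  (4 / 3 * Real.cos (u ^ (1 / 3 : ℝ)) - u ^ (1 / 3 : ℝ) / 3 * Real.sin (u ^ (1 / 3 : ℝ))) *
    (1 / 3 * u ^ ((1 / 3 : ℝ) - 1))

private theorem hv (u : ℝ) (hu : 0 < u) :
    HasDerivAt (fun u : ℝ => u ^ (1 / 3 : ℝ)) (1 / 3 * u ^ ((1 / 3 : ℝ) - 1)) u :=
  Real.hasDerivAt_rpow_const (Or.inl hu.ne')

private theorem d1 (u : ℝ) (hu : 0 < u) :
    HasDerivAt (fun u : ℝ => u * Real.sin (u ^ (1 / 3 : ℝ))) (th1 u) u := by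
  have h := (hasDerivAt_id u).mul ((hv u hu).sin)
  have e : u * (1 / 3 * u ^ ((1 / 3 : ℝ) - 1)) = u ^ (1 / 3 : ℝ) / 3 := by
    rw [Real.rpow_sub_one hu.ne']
    field_simp
  refine (h.congr_deriv ?_)
  simp only [id, th1]
  rw [one_mul]
  congr 1
  rw [← e]
  ring

private theorem d2 (u : ℝ) (hu : 0 < u) : HasDerivAt th1 (th2 u) u := by
  have h := ((hv u hu).sin).add (((hv u hu).div_const 3).mul ((hv u hu).cos))
  refine (h.congr_deriv ?_)
  simp only [th2]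
  ring

private theorem cube (v : ℝ) (hv : 0 ≤ v) : (v ^ 3) ^ (1 / 3 : ℝ) = v := by
  rw [← Real.rpow_natCast, ← Real.rpow_mul hv]
  norm_num

private theorem lim : Filter.Tendsto (fun u => th2 u * Real.log u) Filter.atTop (nhds 0) := by
  have h1 : Tendsto (fun u : ℝ => Real.log u / u ^ (1 / 3 : ℝ)) atTop (nhds 0) :=
    (isLittleO_log_rpow_atTop (by norm_num : (0 : ℝ) < 1 / 3)).tendsto_div_nhds_zero
  refine squeeze_zero_norm' ?_ h1
  filter_upwards [eventually_ge_atTop (1 : ℝ)] with u hu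
  have hu0 : 0 < u := by linarith
  have hv1 : 1 ≤ u ^ (1 / 3 : ℝ) := Real.one_le_rpow hu (by norm_num)
  have hv0 : 0 < u ^ (1 / 3 : ℝ) := by linarith
  have hlog : 0 ≤ Real.log u := Real.log_nonneg hu
  have e : u ^ ((1 / 3 : ℝ) - 1) = 1 / (u ^ (1 / 3 : ℝ)) ^ 2 := by
    have e1 : (u ^ (1 / 3 : ℝ)) ^ 2 = u ^ (2 / 3 : ℝ) := by
      rw [← Real.rpow_natCast, ← Real.rpow_mul hu0.le]
      norm_num
    rw [e1, one_div (u ^ (2 / 3 : ℝ)), ← Real.rpow_neg hu0.le]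
    norm_num
  rw [Real.norm_eq_abs, abs_mul, abs_of_nonneg hlog]
  have hb : |th2 u| ≤ 1 / u ^ (1 / 3 : ℝ) := by
    unfold th2
    rw [e]
    set v := u ^ (1 / 3 : ℝ)
    rw [abs_mul, abs_of_pos (by positivity : 0 < 1 / 3 * (1 / v ^ 2))]
    have hc := Real.abs_cos_le_one v
    have hs := Real.abs_sin_le_one v
    have h2 : |4 / 3 * Real.cos v - v / 3 * Real.sin v| ≤ 4 / 3 + v / 3 := by
      refine (abs_sub _ _).trans ?_
      rw [abs_mul, abs_mul, abs_of_pos (by norm_num : (0 : ℝ) < 4 / 3), abs_of_pos (by positivity : 0 < v / 3)]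
      nlinarith
    have h3 : (4 / 3 + v / 3) * (1 / 3 * (1 / v ^ 2)) ≤ 1 / v := by
      rw [← sub_nonneg]
      have : 1 / v - (4 / 3 + v / 3) * (1 / 3 * (1 / v ^ 2)) = (9 * v - 4 - v) / (9 * v ^ 2) := by
        field_simp
        ring
      rw [this]
      apply div_nonneg <;> nlinarith
    exact (mul_le_mul_of_nonneg_right h2 (by positivity)).trans h3
  calc |th2 u| * Real.log u ≤ 1 / u ^ (1 / 3 : ℝ) * Real.log u :=
        mul_le_mul_of_nonneg_right hb hlog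
    _ = Real.log u / u ^ (1 / 3 : ℝ) := by ring

/-- the example `θ(u) = u sin(u^(1/3))` -/
theorem ex_chirp : ∃ θ' θ'' : ℝ → ℝ,
    (∀ u : ℝ, 0 < u → HasDerivAt (fun u : ℝ => u * Real.sin (u ^ (1 / 3 : ℝ))) (θ' u) u ∧
      HasDerivAt θ' (θ'' u) u) ∧
    Filter.Tendsto (fun u => θ'' u * Real.log u) Filter.atTop (nhds 0) ∧
    (∀ u0 : ℝ, ∃ u : ℝ, u0 ≤ u ∧ |θ' u| ≤ 1) ∧
    ∀ C : ℝ, ∃ u : ℝ, 1 ≤ u ∧ C < |θ' u| := by
  refine ⟨th1, th2, fun u hu => ⟨d1 u hu, d2 u hu⟩, lim, ?_, ?_⟩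
  · intro u0
    obtain ⟨k, hk⟩ := exists_nat_ge u0
    set v : ℝ := Real.pi / 2 + k * (2 * Real.pi) with hvdef
    have hpi := Real.pi_gt_three
    have hk0 : (0 : ℝ) ≤ k := Nat.cast_nonneg k
    have hv1 : 1 + k ≤ v := by
      rw [hvdef]; nlinarith
    have hv0 : 0 ≤ v := by linarith
    refine ⟨v ^ 3, ?_, ?_⟩
    · have : v ≤ v ^ 3 := by nlinarith [mul_nonneg hv0 (by nlinarith : (0 : ℝ) ≤ v ^ 2 - 1)]
      linarith
    · unfold th1
      rw [cube v hv0]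
      have hs : Real.sin v = 1 := by
        rw [hvdef, Real.sin_add_nat_mul_two_pi, Real.sin_pi_div_two]
      have hc : Real.cos v = 0 := by
        rw [hvdef, Real.cos_add_nat_mul_two_pi, Real.cos_pi_div_two]
      rw [hs, hc]
      norm_num
  · intro C
    obtain ⟨k, hk⟩ := exists_nat_ge C
    set v : ℝ := ((k + 1 : ℕ) : ℝ) * (2 * Real.pi) with hvdef
    have hpi := Real.pi_gt_three
    have hk0 : (0 : ℝ) ≤ k := Nat.cast_nonneg k
    have hv1 : 6 * (k + 1) ≤ v := by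
      rw [hvdef]; push_cast; nlinarith
    have hv0 : 0 ≤ v := by linarith
    refine ⟨v ^ 3, ?_, ?_⟩
    · have : (1 : ℝ) ≤ v := by linarith
      exact one_le_pow₀ this
    · unfold th1
      rw [cube v hv0]
      have hs : Real.sin v = 0 := by
        rw [hvdef]
        have := Real.sin_add_nat_mul_two_pi 0 (k + 1)
        rw [zero_add, Real.sin_zero] at this
        exact this
      have hc : Real.cos v = 1 := by
        rw [hvdef]
        exact Real.cos_nat_mul_two_pi (k + 1)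
      rw [hs, hc, zero_add, mul_one, abs_of_nonneg (by positivity)]
      linarith

end Pool.Agent.Helper56.LV
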