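import Pool.Agent.Helper66.LV.Defs
import Pool.Agent.Helper56.DR.Near2

/-!
# MP_a499ba_nt, large values of the imaginary twists, block FL: from large values of the sums to the property `ExW`
-/

set_option autoImplicit false

namespace Pool.Agent.Helper66.LV

open MeasureTheory Filter Topology Pool.Agent.IT

/-- the deterministic step -/
theorem core_fl {a : ℕ → ℂ} {C B s : ℝ} (hB : 0 ≤ B) (hs : DgW a C s) (hnot : ¬ ExW a B s) :
    ∀ n : ℕ, 1 ≤ n → 2 * Real.pi * (n + 1) ≤ |s| → ‖Sw a s n‖ ≤ 2 * (3 * B + |C|) * Real.sqrt n := by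
  intro n hn hsn
  unfold ExW at hnot
  push Not at hnot
  obtain ⟨φ, hx0⟩ := hnot
  obtain ⟨x, hx1, hx2, hx3⟩ := circle57 a hn hsn φ
  have hn1 : (1 : ℝ) ≤ n := by exact_mod_cast hn
  have h5 := hs φ _ hB hx0 x (hn1.trans hx1)
  rw [hx3] at h5
  have h6 : Real.sqrt x ≤ 2 * Real.sqrt n := by
    rw [show 2 * Real.sqrt n = Real.sqrt (4 * n) by
      rw [Real.sqrt_mul (by norm_num), show (4 : ℝ) = 2 ^ 2 by norm_num, Real.sqrt_sq (by norm_num)]]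
    exact Real.sqrt_le_sqrt (by linarith)
  have h7 : 3 * B + C ≤ 3 * B + |C| := by linarith [le_abs_self C]
  have h8 : 0 ≤ 3 * B + |C| := by positivity
  calc ‖Sw a s n‖ ≤ (3 * B + C) * Real.sqrt x := h5
    _ ≤ (3 * B + |C|) * Real.sqrt x := mul_le_mul_of_nonneg_right h7 (Real.sqrt_nonneg _)
    _ ≤ (3 * B + |C|) * (2 * Real.sqrt n) := mul_le_mul_of_nonneg_left h6 h8
    _ = _ := by ring

/-- the large value forces the property, once the level is large -/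
theorem core_fl2 {a : ℕ → ℂ} {C B s H : ℝ} (hB1 : 1 ≤ B) (hB : 6 + 2 * |C| ≤ B) (hs : DgW a C s)
    (hH : 1 ≤ H) (hsH : 2 * Real.pi * (Real.sqrt H + 1) ≤ |s|)
    (hbig : ∃ n : ℕ, 1 ≤ n ∧ (n : ℝ) ≤ H ^ (1 / 8 : ℝ) ∧ B ^ 2 * Real.sqrt n < ‖Sw a s n‖) : ExW a B s := by
  by_contra hnot
  obtain ⟨n, hn, hnH, hbig⟩ := hbig
  have hn2 : (n : ℝ) ≤ Real.sqrt H := by
    refine hnH.trans ?_
    rw [Real.sqrt_eq_rpow]
    exact Real.rpow_le_rpow_of_exponent_le hH (by norm_num)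
  have h1 : 2 * Real.pi * ((n : ℝ) + 1) ≤ |s| := by
    refine le_trans ?_ hsH
    apply mul_le_mul_of_nonneg_left _ (by positivity)
    linarith
  have h2 := core_fl (by linarith) hs hnot n hn h1
  have h3 : 2 * (3 * B + |C|) ≤ B ^ 2 := by
    have := abs_nonneg C
    nlinarith
  have h4 : 2 * (3 * B + |C|) * Real.sqrt n ≤ B ^ 2 * Real.sqrt n := mul_le_mul_of_nonneg_right h3 (Real.sqrt_nonneg _)
  linarith

theorem gain_tendsto {c : ℝ} (hc : 0 < c) (M : ℝ) :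
    ∀ᶠ H : ℝ in atTop, M ≤ Real.exp (c * Real.sqrt (Real.log H) / Real.log (Real.log H)) := by
  have e1 : Tendsto (fun L : ℝ => L ^ (1 / 4 : ℝ)) atTop atTop := tendsto_rpow_atTop (by norm_num)
  have e2 : ∀ᶠ L : ℝ in atTop, M ≤ Real.exp (c * Real.sqrt L / Real.log L) := by
    filter_upwards [e1.eventually_ge_atTop (4 * |M| / c), eventually_gt_atTop 1] with L h1 h2
    have h3 : Real.log L ≤ L ^ (1 / 4 : ℝ) / (1 / 4) := Real.log_le_rpow_div (by linarith) (by norm_num)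
    have h4 : 0 < Real.log L := Real.log_pos h2
    have h5 : Real.sqrt L = L ^ (1 / 4 : ℝ) * L ^ (1 / 4 : ℝ) := by
      rw [Real.sqrt_eq_rpow, ← Real.rpow_add (by linarith)]
      norm_num
    have h6 : 0 < L ^ (1 / 4 : ℝ) := Real.rpow_pos_of_pos (by linarith) _
    have h7 : |M| ≤ c * Real.sqrt L / Real.log L := by
      rw [le_div_iff₀ h4, h5]
      rw [div_le_iff₀ hc] at h1
      have h8 : |M| * Real.log L ≤ |M| * (4 * L ^ (1 / 4 : ℝ)) := by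
        apply mul_le_mul_of_nonneg_left _ (abs_nonneg _)
        linarith
      calc |M| * Real.log L ≤ |M| * (4 * L ^ (1 / 4 : ℝ)) := h8
        _ = (4 * |M|) * L ^ (1 / 4 : ℝ) := by ring
        _ ≤ (L ^ (1 / 4 : ℝ) * c) * L ^ (1 / 4 : ℝ) := mul_le_mul_of_nonneg_right h1 h6.le
        _ = _ := by ring
    have h9 := Real.add_one_le_exp (c * Real.sqrt L / Real.log L)
    have h10 := le_abs_self M
    linarith
  exact Real.tendsto_log_atTop.eventually e2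

/-- **block FL**, from `lv` -/
theorem fl_of (hlv : ∀ ε : ℝ, 0 < ε → ∃ c : ℝ, 0 < c ∧ ∃ H0 : ℝ, ∀ H : ℝ, H0 ≤ H → ∀ U : ℝ,
    ENNReal.ofReal (H ^ (1 - ε)) ≤ volume {t : ℝ | U ≤ t ∧ t ≤ U + H ∧
      (∃ n : ℕ, 1 ≤ n ∧ (n : ℝ) ≤ H ^ (1 / 8 : ℝ) ∧
        Real.exp (c * Real.sqrt (Real.log H) / Real.log (Real.log H)) * Real.sqrt n < ‖Sw muc t n‖) ∧
      ∃ n : ℕ, 1 ≤ n ∧ (n : ℝ) ≤ H ^ (1 / 8 : ℝ) ∧
        Real.exp (c * Real.sqrt (Real.log H) / Real.log (Real.log H)) * Real.sqrt n < ‖Sw lac t n‖})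
    {C1 C2 : ℝ} (h1 : ∀ t : ℝ, 10 ≤ |t| → DgW muc C1 t) (h2 : ∀ t : ℝ, 10 ≤ |t| → DgW lac C2 t)
    (ε : ℝ) (hε : 0 < ε) : ∃ c : ℝ, 0 < c ∧ ∃ H0 : ℝ, ∀ H : ℝ, H0 ≤ H → ∀ U : ℝ,
    ENNReal.ofReal (H ^ (1 - ε)) ≤ volume {t : ℝ | U ≤ t ∧ t ≤ U + H ∧
      ExW muc (Real.exp (c * Real.sqrt (Real.log H) / Real.log (Real.log H))) t ∧
      ExW lac (Real.exp (c * Real.sqrt (Real.log H) / Real.log (Real.log H))) t} := by
  have hpi := Real.pi_pos
  have hpi3 := Real.pi_gt_three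
  have hpi4 := Real.pi_lt_four
  set e : ℝ := min ε (1 / 4) with he
  have he0 : 0 < e := lt_min hε (by norm_num)
  have he1 : e ≤ ε := min_le_left _ _
  have he2 : e ≤ 1 / 4 := min_le_right _ _
  obtain ⟨c, hc, H1, hH1⟩ := hlv (e / 2) (by positivity)
  have t1 : Tendsto (fun H : ℝ => H ^ (e / 2)) atTop atTop := tendsto_rpow_atTop (by positivity)
  have t2 : Tendsto (fun H : ℝ => H ^ (1 / 4 : ℝ)) atTop atTop := tendsto_rpow_atTop (by norm_num)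
  obtain ⟨H2, hH2⟩ := Filter.eventually_atTop.1 (((gain_tendsto (half_pos hc) (max 1 (6 + 2 * max |C1| |C2|))).and
    (t1.eventually_ge_atTop 2)).and ((t2.eventually_ge_atTop 32).and (eventually_ge_atTop 1)))
  refine ⟨c / 2, half_pos hc, max H1 H2, fun H hH U => ?_⟩
  obtain ⟨⟨k1, k2⟩, k3, k4⟩ := hH2 H ((le_max_right _ _).trans hH)
  have k0 := hH1 H ((le_max_left _ _).trans hH) U
  set B : ℝ := Real.exp (c / 2 * Real.sqrt (Real.log H) / Real.log (Real.log H)) with hB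
  have hB2 : Real.exp (c * Real.sqrt (Real.log H) / Real.log (Real.log H)) = B ^ 2 := by
    rw [hB, ← Real.exp_nat_mul]
    congr 1
    push_cast
    ring
  rw [hB2] at k0
  have hB1 : 1 ≤ B := (le_max_left _ _).trans k1
  have hBC : 6 + 2 * max |C1| |C2| ≤ B := (le_max_right _ _).trans k1
  have hBC1 : 6 + 2 * |C1| ≤ B := by linarith [le_max_left |C1| |C2|]
  have hBC2 : 6 + 2 * |C2| ≤ B := by linarith [le_max_right |C1| |C2|]
  have hs1 : 1 ≤ Real.sqrt H := by rw [Real.one_le_sqrt]; exact k4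
  set r : ℝ := 2 * Real.pi * (Real.sqrt H + 1) with hr
  have hr10 : 10 ≤ r := by rw [hr]; nlinarith
  have hsub : {t : ℝ | U ≤ t ∧ t ≤ U + H ∧
      (∃ n : ℕ, 1 ≤ n ∧ (n : ℝ) ≤ H ^ (1 / 8 : ℝ) ∧ B ^ 2 * Real.sqrt n < ‖Sw muc t n‖) ∧
      ∃ n : ℕ, 1 ≤ n ∧ (n : ℝ) ≤ H ^ (1 / 8 : ℝ) ∧ B ^ 2 * Real.sqrt n < ‖Sw lac t n‖} ⊆
      Set.Icc (-r) r ∪ {t : ℝ | U ≤ t ∧ t ≤ U + H ∧ ExW muc B t ∧ ExW lac B t} := by
    rintro t ⟨ht1, ht2, ht3, ht4⟩
    by_cases hsm : |t| ≤ r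
    · left
      exact Set.mem_Icc.2 (abs_le.1 hsm)
    · right
      push Not at hsm
      exact ⟨ht1, ht2, core_fl2 hB1 hBC1 (h1 t (by linarith)) k4 hsm.le ht3, core_fl2 hB1 hBC2 (h2 t (by linarith)) k4 hsm.le ht4⟩
  have hm := k0.trans ((measure_mono hsub).trans (measure_union_le _ _))
  rw [Real.volume_Icc] at hm
  have hr0 : 0 ≤ r - -r := by linarith
  -- the numbers
  have hnum : (r - -r) + H ^ (1 - ε) ≤ H ^ (1 - e / 2) := by
    have q1 : H ^ (1 - ε) ≤ H ^ (1 - e) := Real.rpow_le_rpow_of_exponent_le k4 (by linarith)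
    have q2 : H ^ (1 - e / 2) = H ^ (1 - e) * H ^ (e / 2) := by
      rw [← Real.rpow_add (by linarith)]
      congr 1
      ring
    have q3 : H ^ (3 / 4 : ℝ) ≤ H ^ (1 - e) := Real.rpow_le_rpow_of_exponent_le k4 (by linarith)
    have q4 : H ^ (3 / 4 : ℝ) = Real.sqrt H * H ^ (1 / 4 : ℝ) := by
      rw [Real.sqrt_eq_rpow, ← Real.rpow_add (by linarith)]
      norm_num
    have q5 : r - -r ≤ 32 * Real.sqrt H := by rw [hr]; nlinarith
    have q6 : 32 * Real.sqrt H ≤ H ^ (3 / 4 : ℝ) := by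
      rw [q4, mul_comm]
      exact mul_le_mul_of_nonneg_left k3 (Real.sqrt_nonneg _)
    have q7 : 0 ≤ H ^ (1 - e) := Real.rpow_nonneg (by linarith) _
    rw [q2]
    nlinarith
  have h0 : 0 ≤ H ^ (1 - ε) := Real.rpow_nonneg (by linarith) _
  have hm2 : ENNReal.ofReal (r - -r) + ENNReal.ofReal (H ^ (1 - ε)) ≤
      ENNReal.ofReal (r - -r) + volume {t : ℝ | U ≤ t ∧ t ≤ U + H ∧ ExW muc B t ∧ ExW lac B t} := by
    rw [← ENNReal.ofReal_add hr0 h0]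
    exact (ENNReal.ofReal_le_ofReal hnum).trans hm
  exact (ENNReal.add_le_add_iff_left ENNReal.ofReal_ne_top).1 hm2

end Pool.Agent.Helper66.LV
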