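import Pool.Agent.Helper56.LV.FL

/-!
# MP_a499ba_nt, imaginary twists: one formula for all levels `V`
-/

set_option autoImplicit false

namespace Pool.Agent.Helper56.LV

open MeasureTheory Filter Topology Pool.Agent.IT Pool.Agent.DR Pool.Agent.Helper66.LV

/-- the large values of the sums, uniformly in the level -/
def StmtLvV : Prop := ∀ ε : ℝ, 0 < ε → ε < 1 / 2 → ∃ V1 H0 : ℝ, ∀ H : ℝ, H0 ≤ H → ∀ U V : ℝ, V1 ≤ V →
  V ≤ Real.exp (Real.log H ^ (1 / 2 - ε)) →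
  ENNReal.ofReal (Real.exp (-(Real.log V) ^ (2 + ε)) * H) ≤ volume {t : ℝ | U ≤ t ∧ t ≤ U + H ∧
    (∃ n : ℕ, 1 ≤ n ∧ (n : ℝ) ≤ H ^ (1 / 8 : ℝ) ∧ V * Real.sqrt n < ‖Sw muc t n‖) ∧
    ∃ n : ℕ, 1 ≤ n ∧ (n : ℝ) ≤ H ^ (1 / 8 : ℝ) ∧ V * Real.sqrt n < ‖Sw lac t n‖}

theorem exW_mono {a : ℕ → ℂ} {B B' s : ℝ} (h : ExW a B s) (hB : B' ≤ B) : ExW a B' s := by
  intro φ
  obtain ⟨K, hK⟩ := h φ
  refine ⟨K, fun X hX => ?_⟩
  obtain ⟨x, h1, h2, h3⟩ := hK X hX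
  exact ⟨x, h1, h2, (mul_le_mul_of_nonneg_right hB (Real.sqrt_nonneg x)).trans_lt h3⟩

/-- a large value at `t` forces the property for all `s` near `t` -/
theorem core_near {a : ℕ → ℂ} {C V H w t : ℝ} (hC : ∀ s : ℝ, 10 ≤ |s| → DgW a C s) (hV : 1 ≤ V) (hVC : 6 * (3 + |C|) ≤ V)
    (hw1 : 1 ≤ w) (hw : w ≤ V) (hwH : w ≤ 2 * Real.sqrt H) (hH : 1 ≤ H) (ht : 4 * Real.pi * (Real.sqrt H + 1) < |t|)
    (hbig : ∃ n : ℕ, 1 ≤ n ∧ (n : ℝ) ≤ H ^ (1 / 8 : ℝ) ∧ V ^ 4 * Real.sqrt n < ‖Sw a t n‖) :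
    ∀ s : ℝ, |s - t| ≤ w → ExW a V s := by
  intro s hst
  by_contra hnot
  have hpi3 := Real.pi_gt_three
  have hs0 := Real.sqrt_nonneg H
  have hs1 : 2 * Real.pi * (Real.sqrt H + 1) ≤ |s| := by
    have q1 : |t| - |s - t| ≤ |s| := by
      have := abs_sub_abs_le_abs_sub t s
      rw [abs_sub_comm] at this
      linarith
    have q2 : 2 * Real.sqrt H ≤ 2 * Real.pi * (Real.sqrt H + 1) := by nlinarith
    linarith
  have hs10 : 10 ≤ |s| := by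
    refine le_trans ?_ hs1
    have : 1 ≤ Real.sqrt H := by rw [Real.one_le_sqrt]; exact hH
    nlinarith
  have h18 : H ^ (1 / 8 : ℝ) ≤ Real.sqrt H := by
    rw [Real.sqrt_eq_rpow]
    exact Real.rpow_le_rpow_of_exponent_le hH (by norm_num)
  have q5 : ∀ n : ℕ, 1 ≤ n → (n : ℝ) ≤ H ^ (1 / 8 : ℝ) → ‖Sw a s n‖ ≤ 2 * (3 * V + |C|) * Real.sqrt n := by
    intro n hn hnH
    refine core_fl (by linarith) (hC s hs10) hnot n hn ?_
    refine le_trans ?_ hs1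
    apply mul_le_mul_of_nonneg_left _ (by positivity)
    linarith
  obtain ⟨n, hn, hnH, hbig⟩ := hbig
  have h1 := cmpN a (t := t) q5 n hn hnH
  have hC0 : 0 ≤ |C| := abs_nonneg C
  have q6 : 1 + 2 * |t - s| ≤ 3 * V := by
    rw [abs_sub_comm]
    linarith
  have q7 : 2 * (3 * V + |C|) ≤ 2 * (3 + |C|) * V := by nlinarith
  have q8 : (1 + 2 * |t - s|) * (2 * (3 * V + |C|)) ≤ V ^ 4 := by
    calc (1 + 2 * |t - s|) * (2 * (3 * V + |C|)) ≤ (3 * V) * (2 * (3 + |C|) * V) :=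
          mul_le_mul q6 q7 (by positivity) (by positivity)
      _ = (6 * (3 + |C|)) * V ^ 2 := by ring
      _ ≤ V * V ^ 2 := mul_le_mul_of_nonneg_right hVC (by positivity)
      _ ≤ V * V ^ 2 * V := le_mul_of_one_le_right (by positivity) hV
      _ = V ^ 4 := by ring
  have h2 := mul_le_mul_of_nonneg_right q8 (Real.sqrt_nonneg (n : ℝ))
  linarith

theorem num_large {ε L V : ℝ} (hε : 0 < ε) (hε4 : ε < 1 / 4) (d6 : 1 ≤ L) (hV0 : 0 < V)
    (hℓL : (1 / 4 - ε / 2) * Real.log L ≤ Real.log V) (hℓ1 : 1 ≤ Real.log V)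
    (hℓK : (4 ^ (2 + ε / 2) + 1) / (2 * ε) ^ (2 + ε) ≤ Real.log V ^ (ε / 2)) :
    (4 * Real.log V) ^ (2 + ε / 2) + 1 ≤ Real.posLog (V / L ^ (1 / 4 - ε)) ^ (2 + ε) := by
  have hL0 : 0 < L := by linarith
  generalize hℓ : Real.log V = ℓ at *
  have q1 : 2 * ε * ℓ ≤ Real.posLog (V / L ^ (1 / 4 - ε)) := by
    have q2 : Real.log (V / L ^ (1 / 4 - ε)) ≤ Real.posLog (V / L ^ (1 / 4 - ε)) := by
      rw [Real.posLog_apply]
      exact le_max_right _ _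
    refine le_trans ?_ q2
    rw [Real.log_div hV0.ne' (Real.rpow_pos_of_pos hL0 _).ne', Real.log_rpow hL0, hℓ]
    have q3 : 0 < 1 / 4 - ε / 2 := by linarith
    have q4 : (1 / 4 - ε) * Real.log L ≤ (1 - 2 * ε) * ℓ := by
      have q5 : (1 / 4 - ε) ≤ (1 - 2 * ε) * (1 / 4 - ε / 2) := by nlinarith
      have q6 : 0 ≤ Real.log L := Real.log_nonneg d6
      calc (1 / 4 - ε) * Real.log L ≤ ((1 - 2 * ε) * (1 / 4 - ε / 2)) * Real.log L := mul_le_mul_of_nonneg_right q5 q6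
        _ = (1 - 2 * ε) * ((1 / 4 - ε / 2) * Real.log L) := by ring
        _ ≤ (1 - 2 * ε) * ℓ := mul_le_mul_of_nonneg_left hℓL (by linarith)
    linarith
  have hℓ0 : 0 < ℓ := by linarith
  have q7 : (2 * ε * ℓ) ^ (2 + ε) ≤ Real.posLog (V / L ^ (1 / 4 - ε)) ^ (2 + ε) :=
    Real.rpow_le_rpow (by positivity) q1 (by linarith)
  refine le_trans ?_ q7
  have q8 : (2 * ε * ℓ) ^ (2 + ε) = (2 * ε) ^ (2 + ε) * (ℓ ^ (ε / 2) * ℓ ^ (2 + ε / 2)) := by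
    rw [Real.mul_rpow (by positivity) hℓ0.le, ← Real.rpow_add hℓ0]
    congr 2
    ring
  have q9 : (4 * ℓ) ^ (2 + ε / 2) = 4 ^ (2 + ε / 2) * ℓ ^ (2 + ε / 2) := by
    rw [Real.mul_rpow (by norm_num) hℓ0.le]
  have q10 : 1 ≤ ℓ ^ (2 + ε / 2) := Real.one_le_rpow hℓ1 (by positivity)
  have q0 : (0 : ℝ) < (2 * ε) ^ (2 + ε) := by positivity
  rw [div_le_iff₀ q0] at hℓK
  calc (4 * ℓ) ^ (2 + ε / 2) + 1 ≤ 4 ^ (2 + ε / 2) * ℓ ^ (2 + ε / 2) + ℓ ^ (2 + ε / 2) := by rw [q9]; linarith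
    _ = (4 ^ (2 + ε / 2) + 1) * ℓ ^ (2 + ε / 2) := by ring
    _ ≤ (ℓ ^ (ε / 2) * (2 * ε) ^ (2 + ε)) * ℓ ^ (2 + ε / 2) := mul_le_mul_of_nonneg_right hℓK (by positivity)
    _ = _ := by rw [q8]; ring

theorem num_A {ε ℓ LH : ℝ} (hε : 0 < ε) (hl0 : 1 ≤ LH) (hℓ0 : 0 ≤ ℓ) (h4ℓ : 4 * ℓ ≤ LH ^ (1 / 2 - ε / 2))
    (d3 : 4 ≤ LH ^ (3 * ε / 4)) : (4 * ℓ) ^ (2 + ε / 2) ≤ LH / 4 := by
  have q1 : (4 * ℓ) ^ (2 + ε / 2) ≤ LH ^ (1 - 3 * ε / 4) := by
    calc (4 * ℓ) ^ (2 + ε / 2) ≤ (LH ^ (1 / 2 - ε / 2)) ^ (2 + ε / 2) := Real.rpow_le_rpow (by positivity) h4ℓ (by positivity)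
      _ = LH ^ ((1 / 2 - ε / 2) * (2 + ε / 2)) := by rw [← Real.rpow_mul (by linarith)]
      _ ≤ LH ^ (1 - 3 * ε / 4) := Real.rpow_le_rpow_of_exponent_le hl0 (by nlinarith)
  have q2 : LH ^ (1 - 3 * ε / 4) * LH ^ (3 * ε / 4) = LH := by
    rw [← Real.rpow_add (by linarith), show 1 - 3 * ε / 4 + 3 * ε / 4 = (1 : ℝ) by ring, Real.rpow_one]
  have q3 : 0 ≤ LH ^ (1 - 3 * ε / 4) := Real.rpow_nonneg (by linarith) _
  nlinarith

theorem num_H {A H : ℝ} (hH : 1 ≤ H) (hAH : A ≤ Real.log H / 4) (d5 : 128 ≤ H ^ (1 / 4 : ℝ)) :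
    2 * (4 * Real.pi * (Real.sqrt H + 1) - -(4 * Real.pi * (Real.sqrt H + 1))) ≤ Real.exp (-A) * H := by
  have hHp : 0 < H := by linarith
  have hpi := Real.pi_pos
  have hpi4 := Real.pi_lt_four
  have hsH : 1 ≤ Real.sqrt H := by rw [Real.one_le_sqrt]; exact hH
  have hexpA : H ^ (-(1 / 4) : ℝ) ≤ Real.exp (-A) := by
    rw [Real.rpow_def_of_pos hHp]
    apply Real.exp_le_exp.2
    linarith
  have q4 : H ^ (-(1 / 4) : ℝ) * H = Real.sqrt H * H ^ (1 / 4 : ℝ) := by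
    rw [Real.sqrt_eq_rpow, ← Real.rpow_add hHp]
    nth_rewrite 2 [← Real.rpow_one H]
    rw [← Real.rpow_add hHp]
    norm_num
  have q5 : 2 * (4 * Real.pi * (Real.sqrt H + 1) - -(4 * Real.pi * (Real.sqrt H + 1))) ≤ 128 * Real.sqrt H := by nlinarith
  have q6 : 128 * Real.sqrt H ≤ Real.sqrt H * H ^ (1 / 4 : ℝ) := by
    rw [mul_comm]
    exact mul_le_mul_of_nonneg_left d5 (Real.sqrt_nonneg _)
  calc 2 * (4 * Real.pi * (Real.sqrt H + 1) - -(4 * Real.pi * (Real.sqrt H + 1))) ≤ H ^ (-(1 / 4) : ℝ) * H := by rw [q4]; linarith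
    _ ≤ _ := mul_le_mul_of_nonneg_right hexpA hHp.le

/-- one formula for all levels -/
theorem uni_of (hlv : StmtLvV) (hM : StmtNear2 muc) (hL : StmtNear2 lac) {C1 C2 : ℝ} (h1 : ∀ t : ℝ, 10 ≤ |t| → DgW muc C1 t)
    (h2 : ∀ t : ℝ, 10 ≤ |t| → DgW lac C2 t) (ε : ℝ) (hε : 0 < ε) (hε4 : ε < 1 / 4) :
    ∃ H0 : ℝ, ∀ H : ℝ, H0 ≤ H → ∀ U V : ℝ, 0 < V → V ≤ Real.exp (Real.log H ^ (1 / 2 - ε)) →
      ENNReal.ofReal ((1 - ε) * Real.exp (-(Real.posLog (V / Real.log (Real.log H) ^ (1 / 4 - ε))) ^ (2 + ε)) * H) ≤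
        volume {t : ℝ | U ≤ t ∧ t ≤ U + H ∧ ∀ s : ℝ, |s - t| ≤ Real.log (Real.log H) ^ (ε / 4) → ExW muc V s ∧ ExW lac V s} := by
  have hpi := Real.pi_pos
  have hpi3 := Real.pi_gt_three
  have hpi4 := Real.pi_lt_four
  obtain ⟨HM, kM⟩ := hM (ε / 2) (ε / 2) (by positivity) (by linarith) (by positivity)
  obtain ⟨HL, kL⟩ := hL (ε / 2) (ε / 2) (by positivity) (by linarith) (by positivity)
  obtain ⟨V1, HV, kV⟩ := hlv (ε / 2) (by positivity) (by linarith)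
  have t1 : Tendsto (fun H : ℝ => Real.log H) atTop atTop := Real.tendsto_log_atTop
  have t2 : Tendsto (fun H : ℝ => Real.log (Real.log H)) atTop atTop := t1.comp t1
  have t3 : Tendsto (fun H : ℝ => Real.log (Real.log (Real.log H))) atTop atTop := t1.comp t2
  obtain ⟨Kc, hKc⟩ : ∃ Kc : ℝ, Kc = (4 ^ (2 + ε / 2) + 1) / (2 * ε) ^ (2 + ε) := ⟨_, rfl⟩
  have hKc0 : 0 < Kc := by rw [hKc]; positivity
  have c1 : ∀ᶠ H : ℝ in atTop, max (max V1 1) (max (6 * (3 + |C1|)) (6 * (3 + |C2|))) ≤ Real.log (Real.log H) ^ (1 / 4 - ε / 2) :=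
    ((tendsto_rpow_atTop (by linarith)).comp t2).eventually_ge_atTop _
  have c2 : ∀ᶠ H : ℝ in atTop, 4 ≤ Real.log H ^ (ε / 2) :=
    ((tendsto_rpow_atTop (by positivity)).comp t1).eventually_ge_atTop _
  have c3 : ∀ᶠ H : ℝ in atTop, 4 ≤ Real.log H ^ (3 * ε / 4) :=
    ((tendsto_rpow_atTop (by positivity)).comp t1).eventually_ge_atTop _
  have c4 : ∀ᶠ H : ℝ in atTop, max 1 (Kc ^ (2 / ε)) ≤ (1 / 4 - ε / 2) * Real.log (Real.log (Real.log H)) :=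
    (t3.const_mul_atTop (by linarith : 0 < 1 / 4 - ε / 2)).eventually_ge_atTop _
  have c5 : ∀ᶠ H : ℝ in atTop, 128 ≤ H ^ (1 / 4 : ℝ) := (tendsto_rpow_atTop (by norm_num)).eventually_ge_atTop _
  obtain ⟨H1, k1⟩ := Filter.eventually_atTop.1 ((c1.and (c2.and c3)).and ((c4.and c5).and ((t2.eventually_ge_atTop 1).and
    (eventually_ge_atTop (Real.exp (Real.exp 1))))))
  refine ⟨max (max HM HL) (max HV H1), fun H hH U V hV0 hVH => ?_⟩
  have hHM : HM ≤ H := ((le_max_left _ _).trans (le_max_left _ _)).trans hH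
  have hHL : HL ≤ H := ((le_max_right _ _).trans (le_max_left _ _)).trans hH
  have hHV : HV ≤ H := ((le_max_left _ _).trans (le_max_right _ _)).trans hH
  have hH1 : H1 ≤ H := ((le_max_right _ _).trans (le_max_right _ _)).trans hH
  obtain ⟨⟨d1, d2, d3⟩, ⟨d4, d5⟩, d6, d7⟩ := k1 H hH1
  have hHp : 0 < H := lt_of_lt_of_le (Real.exp_pos _) d7
  have hl1 : Real.exp 1 ≤ Real.log H := by
    rw [← Real.log_exp (Real.exp 1)]
    exact Real.log_le_log (Real.exp_pos _) d7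
  have hl0 : 1 ≤ Real.log H := by
    have := Real.add_one_le_exp (1 : ℝ)
    linarith
  have hH1' : 1 ≤ H := by
    have := Real.log_le_sub_one_of_pos hHp
    linarith
  set L := Real.log (Real.log H) with hL
  have hL0 : 0 < L := by linarith
  have hLH : L ≤ Real.log H := by
    have q2 : Real.log (Real.log H) ≤ Real.log H - 1 := Real.log_le_sub_one_of_pos (by linarith)
    linarith
  have hsq1 : Real.log H ≤ 2 * Real.sqrt H := by
    have q1 : Real.log (Real.sqrt H) ≤ Real.sqrt H - 1 := Real.log_le_sub_one_of_pos (Real.sqrt_pos.2 hHp)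
    rw [Real.log_sqrt hHp.le] at q1
    linarith
  have hsH : 1 ≤ Real.sqrt H := by rw [Real.one_le_sqrt]; exact hH1'
  have hsH2 : Real.sqrt H * Real.sqrt H = H := Real.mul_self_sqrt hHp.le
  have hplog : 0 ≤ Real.posLog (V / L ^ (1 / 4 - ε)) := Real.posLog_nonneg
  rcases le_or_gt V (L ^ (1 / 4 - ε / 2)) with hcase | hcase
  · -- small levels
    have m1 := kM H hHM U
    have m2 := kL H hHL U
    set G : Set ℝ := {t : ℝ | U ≤ t ∧ t ≤ U + H ∧ ∀ s : ℝ, |s - t| ≤ L ^ (ε / 4) → ExW muc V s ∧ ExW lac V s} with hG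
    set b1 : Set ℝ := {t : ℝ | U ≤ t ∧ t ≤ U + H ∧ ¬ ∀ s : ℝ, |s - t| ≤ L ^ (ε / 2 / 2) → ExW muc (L ^ (1 / 4 - ε / 2)) s} with hb1
    set b2 : Set ℝ := {t : ℝ | U ≤ t ∧ t ≤ U + H ∧ ¬ ∀ s : ℝ, |s - t| ≤ L ^ (ε / 2 / 2) → ExW lac (L ^ (1 / 4 - ε / 2)) s} with hb2
    have hsub : Set.Icc U (U + H) ⊆ (b1 ∪ b2) ∪ G := by
      rintro t ⟨ht1, ht2⟩
      by_cases g1 : t ∈ b1 ∪ b2
      · exact Or.inl g1
      · right
        rw [Set.mem_union, not_or] at g1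
        obtain ⟨g1, g2⟩ := g1
        have g3 : ∀ s : ℝ, |s - t| ≤ L ^ (ε / 2 / 2) → ExW muc (L ^ (1 / 4 - ε / 2)) s := by
          by_contra h
          exact g1 ⟨ht1, ht2, h⟩
        have g4 : ∀ s : ℝ, |s - t| ≤ L ^ (ε / 2 / 2) → ExW lac (L ^ (1 / 4 - ε / 2)) s := by
          by_contra h
          exact g2 ⟨ht1, ht2, h⟩
        refine ⟨ht1, ht2, fun s hs => ?_⟩
        have e : ε / 2 / 2 = ε / 4 := by ring
        rw [e] at g3 g4
        exact ⟨exW_mono (g3 s hs) hcase, exW_mono (g4 s hs) hcase⟩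
    have m3 : ENNReal.ofReal H ≤ (ENNReal.ofReal (ε / 2 * H) + ENNReal.ofReal (ε / 2 * H)) + volume G := by
      calc ENNReal.ofReal H = volume (Set.Icc U (U + H)) := by
            rw [Real.volume_Icc]
            congr 1
            ring
        _ ≤ volume ((b1 ∪ b2) ∪ G) := measure_mono hsub
        _ ≤ volume (b1 ∪ b2) + volume G := measure_union_le _ _
        _ ≤ _ := add_le_add ((measure_union_le _ _).trans (add_le_add m1 m2)) le_rfl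
    rw [← ENNReal.ofReal_add (by positivity) (by positivity)] at m3
    have m4 : (ε / 2 * H + ε / 2 * H) + (1 - ε) * H = H := by ring
    have m5 : 0 ≤ (1 - ε) * H := mul_nonneg (by linarith) hHp.le
    nth_rewrite 1 [← m4] at m3
    rw [ENNReal.ofReal_add (by positivity) m5] at m3
    have m6 := (ENNReal.add_le_add_iff_left ENNReal.ofReal_ne_top).1 m3
    refine (ENNReal.ofReal_le_ofReal ?_).trans m6
    have m7 : Real.exp (-(Real.posLog (V / L ^ (1 / 4 - ε))) ^ (2 + ε)) ≤ 1 := by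
      have : 0 ≤ Real.posLog (V / L ^ (1 / 4 - ε)) ^ (2 + ε) := Real.rpow_nonneg hplog _
      exact Real.exp_le_one_iff.2 (by linarith)
    calc (1 - ε) * Real.exp (-(Real.posLog (V / L ^ (1 / 4 - ε))) ^ (2 + ε)) * H ≤ (1 - ε) * 1 * H := by
          apply mul_le_mul_of_nonneg_right _ hHp.le
          exact mul_le_mul_of_nonneg_left m7 (by linarith)
      _ = (1 - ε) * H := by ring
  · -- large levels
    have hX1 : 1 ≤ L ^ (1 / 4 - ε / 2) := ((le_max_right _ _).trans (le_max_left _ _)).trans d1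
    have hV1 : 1 ≤ V := by linarith
    have hVV1 : V1 ≤ V := (((le_max_left _ _).trans (le_max_left _ _)).trans d1).trans hcase.le
    have hVC1 : 6 * (3 + |C1|) ≤ V := (((le_max_left _ _).trans (le_max_right _ _)).trans d1).trans hcase.le
    have hVC2 : 6 * (3 + |C2|) ≤ V := (((le_max_right _ _).trans (le_max_right _ _)).trans d1).trans hcase.le
    set ℓ : ℝ := Real.log V with hℓ
    have hℓL : (1 / 4 - ε / 2) * Real.log L ≤ ℓ := by
      rw [← Real.log_rpow hL0]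
      exact Real.log_le_log (by positivity) hcase.le
    have hℓ1 : 1 ≤ ℓ := ((le_max_left _ _).trans d4).trans hℓL
    have hℓK : Kc ≤ ℓ ^ (ε / 2) := by
      have q1 : Kc ^ (2 / ε) ≤ ℓ := ((le_max_right _ _).trans d4).trans hℓL
      calc Kc = (Kc ^ (2 / ε)) ^ (ε / 2) := by
            rw [← Real.rpow_mul hKc0.le, show 2 / ε * (ε / 2) = 1 by field_simp, Real.rpow_one]
        _ ≤ ℓ ^ (ε / 2) := Real.rpow_le_rpow (by positivity) q1 (by positivity)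
    have hℓH : ℓ ≤ Real.log H ^ (1 / 2 - ε) := by
      rw [hℓ, Real.log_le_iff_le_exp hV0]
      exact hVH
    have hlogV4 : Real.log (V ^ 4) = 4 * ℓ := by
      rw [Real.log_pow, ← hℓ]
      norm_num
    have h4ℓ : 4 * ℓ ≤ Real.log H ^ (1 / 2 - ε / 2) := by
      calc 4 * ℓ ≤ Real.log H ^ (ε / 2) * Real.log H ^ (1 / 2 - ε) := mul_le_mul d2 hℓH (by linarith) (by positivity)
        _ = Real.log H ^ (1 / 2 - ε / 2) := by
            rw [← Real.rpow_add (by linarith)]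
            congr 1
            ring
    have hV4 : V ^ 4 ≤ Real.exp (Real.log H ^ (1 / 2 - ε / 2)) := by
      rw [← Real.log_le_iff_le_exp (by positivity), hlogV4]
      exact h4ℓ
    have hVV4 : V1 ≤ V ^ 4 := hVV1.trans (le_self_pow₀ hV1 (by norm_num))
    have m0 := kV H hHV U (V ^ 4) hVV4 hV4
    rw [hlogV4] at m0
    set A : ℝ := (4 * ℓ) ^ (2 + ε / 2) with hA
    have hw1 : 1 ≤ L ^ (ε / 4) := Real.one_le_rpow d6 (by positivity)
    have hwV : L ^ (ε / 4) ≤ V := (Real.rpow_le_rpow_of_exponent_le d6 (by linarith)).trans hcase.le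
    have hwH : L ^ (ε / 4) ≤ 2 * Real.sqrt H := by
      refine le_trans ?_ (hLH.trans hsq1)
      calc L ^ (ε / 4) ≤ L ^ (1 : ℝ) := Real.rpow_le_rpow_of_exponent_le d6 (by linarith)
        _ = L := Real.rpow_one L
    set r : ℝ := 4 * Real.pi * (Real.sqrt H + 1) with hr
    have hr0 : 0 ≤ r - -r := by
      have : 0 ≤ r := by positivity
      linarith
    have hsub : {t : ℝ | U ≤ t ∧ t ≤ U + H ∧
        (∃ n : ℕ, 1 ≤ n ∧ (n : ℝ) ≤ H ^ (1 / 8 : ℝ) ∧ V ^ 4 * Real.sqrt n < ‖Sw muc t n‖) ∧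
        ∃ n : ℕ, 1 ≤ n ∧ (n : ℝ) ≤ H ^ (1 / 8 : ℝ) ∧ V ^ 4 * Real.sqrt n < ‖Sw lac t n‖} ⊆
        Set.Icc (-r) r ∪ {t : ℝ | U ≤ t ∧ t ≤ U + H ∧ ∀ s : ℝ, |s - t| ≤ L ^ (ε / 4) → ExW muc V s ∧ ExW lac V s} := by
      rintro t ⟨ht1, ht2, ht3, ht4⟩
      by_cases hsm : |t| ≤ r
      · left
        exact Set.mem_Icc.2 (abs_le.1 hsm)
      · right
        push Not at hsm
        exact ⟨ht1, ht2, fun s hs => ⟨core_near h1 hV1 hVC1 hw1 hwV hwH hH1' hsm ht3 s hs,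
          core_near h2 hV1 hVC2 hw1 hwV hwH hH1' hsm ht4 s hs⟩⟩
    have hm := m0.trans ((measure_mono hsub).trans (measure_union_le _ _))
    rw [Real.volume_Icc] at hm
    -- the numbers
    have hA0 : 0 ≤ A := by positivity
    have hAH : A ≤ Real.log H / 4 := num_A hε hl0 (by linarith) h4ℓ d3
    have hbig : 2 * (r - -r) ≤ Real.exp (-A) * H := num_H hH1' hAH d5
    have hlarge : A + 1 ≤ Real.posLog (V / L ^ (1 / 4 - ε)) ^ (2 + ε) := 
      num_large hε hε4 d6 hV0 hℓL hℓ1 (hKc ▸ hℓK)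
    have hexp2 : Real.exp (-(Real.posLog (V / L ^ (1 / 4 - ε))) ^ (2 + ε)) ≤ Real.exp (-A) / 2 := by
      calc Real.exp (-(Real.posLog (V / L ^ (1 / 4 - ε))) ^ (2 + ε)) ≤ Real.exp (-A + -1) := by
            apply Real.exp_le_exp.2
            linarith
        _ = Real.exp (-A) * Real.exp (-1) := Real.exp_add _ _
        _ ≤ Real.exp (-A) * (1 / 2) := by
            apply mul_le_mul_of_nonneg_left _ (Real.exp_pos _).le
            rw [Real.exp_neg, inv_le_comm₀ (Real.exp_pos _) (by norm_num)]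
            have := Real.add_one_le_exp (1 : ℝ)
            norm_num
            linarith
        _ = _ := by ring
    have hnum : (r - -r) + (1 - ε) * Real.exp (-(Real.posLog (V / L ^ (1 / 4 - ε))) ^ (2 + ε)) * H ≤ Real.exp (-A) * H := by
      have q1 : (1 - ε) * Real.exp (-(Real.posLog (V / L ^ (1 / 4 - ε))) ^ (2 + ε)) * H ≤ Real.exp (-A) / 2 * H := by
        apply mul_le_mul_of_nonneg_right _ hHp.le
        refine le_trans ?_ hexp2
        exact mul_le_of_le_one_left (Real.exp_pos _).le (by linarith)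
      linarith
    have h0 : 0 ≤ (1 - ε) * Real.exp (-(Real.posLog (V / L ^ (1 / 4 - ε))) ^ (2 + ε)) * H :=
      mul_nonneg (mul_nonneg (by linarith) (Real.exp_pos _).le) hHp.le
    have hm2 : ENNReal.ofReal (r - -r) + ENNReal.ofReal ((1 - ε) * Real.exp (-(Real.posLog (V / L ^ (1 / 4 - ε))) ^ (2 + ε)) * H) ≤
        ENNReal.ofReal (r - -r) +
          volume {t : ℝ | U ≤ t ∧ t ≤ U + H ∧ ∀ s : ℝ, |s - t| ≤ L ^ (ε / 4) → ExW muc V s ∧ ExW lac V s} := by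
      rw [← ENNReal.ofReal_add hr0 h0]
      exact (ENNReal.ofReal_le_ofReal hnum).trans hm
    exact (ENNReal.add_le_add_iff_left ENNReal.ofReal_ne_top).1 hm2

end Pool.Agent.Helper56.LV
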