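import Pool.Agent.Helper56.LV.FL
import Pool.Agent.Helper56.LV.Uni

/-!
# MP_a499ba_nt, imaginary twists: the link lemma and the small levels
-/

set_option autoImplicit false

namespace Pool.Agent.Helper56.LV

open MeasureTheory Filter Topology Pool.Agent.IT Pool.Agent.DR Pool.Agent.Helper66.LV

/-- a large value at `t` forces the property for all `s` near `t`, with the level `V / (1 + |s - t|)` -/
theorem link {a : ℕ → ℂ} {C C0 V H t : ℝ} (hC : ∀ s : ℝ, 10 ≤ |s| → DgW a C s) (hC0 : 8 * (3 + 2 * |C|) ≤ C0) (hV : 1 ≤ V)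
    (hH : 1 ≤ H) (ht : 2 * Real.pi * (Real.sqrt H + 1) + V ≤ |t|)
    (hbig : ∃ n : ℕ, 1 ≤ n ∧ (n : ℝ) ≤ Real.sqrt H ∧ C0 * V * Real.sqrt n < ‖Sw a t n‖) :
    ∀ s : ℝ, |s - t| ≤ V → ExW a (V / (1 + |s - t|)) s := by
  intro s hst
  by_contra hnot
  have hpi3 := Real.pi_gt_three
  have hs0 : 1 ≤ Real.sqrt H := by rw [Real.one_le_sqrt]; exact hH
  have hd0 := abs_nonneg (s - t)
  have hs1 : 2 * Real.pi * (Real.sqrt H + 1) ≤ |s| := by
    have q1 : |t| - |s - t| ≤ |s| := by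
      have := abs_sub_abs_le_abs_sub t s
      rw [abs_sub_comm] at this
      linarith
    linarith
  have hs10 : 10 ≤ |s| := by
    refine le_trans ?_ hs1
    nlinarith
  set B : ℝ := V / (1 + |s - t|) with hB
  have hB2 : 1 / 2 ≤ B := by
    rw [hB, div_le_div_iff₀ (by norm_num) (by positivity)]
    linarith
  have hBV : (1 + |s - t|) * B = V := by
    rw [hB]
    field_simp
  have hC1 : 0 ≤ |C| := abs_nonneg C
  have q5 : ∀ n : ℕ, 1 ≤ n → (n : ℝ) ≤ Real.sqrt H → ‖Sw a s n‖ ≤ 2 * (3 * B + |C|) * Real.sqrt n := by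
    intro n hn hnH
    refine core_fl (by linarith) (hC s hs10) hnot n hn ?_
    refine le_trans ?_ hs1
    apply mul_le_mul_of_nonneg_left _ (by positivity)
    linarith
  obtain ⟨n, hn, hnH, hbig⟩ := hbig
  have h1 := cmpN a (t := t) q5 n hn hnH
  have q6 : 1 + 2 * |t - s| ≤ 2 * (1 + |s - t|) := by
    rw [abs_sub_comm]
    linarith
  have q7 : 2 * (3 * B + |C|) ≤ 2 * (3 + 2 * |C|) * B := by nlinarith
  have q8 : (1 + 2 * |t - s|) * (2 * (3 * B + |C|)) ≤ C0 * V := by
    calc (1 + 2 * |t - s|) * (2 * (3 * B + |C|)) ≤ (2 * (1 + |s - t|)) * (2 * (3 + 2 * |C|) * B) :=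
          mul_le_mul q6 q7 (by positivity) (by positivity)
      _ = (4 * (3 + 2 * |C|)) * ((1 + |s - t|) * B) := by ring
      _ = (4 * (3 + 2 * |C|)) * V := by rw [hBV]
      _ ≤ C0 * V := mul_le_mul_of_nonneg_right (by linarith) (by linarith)
  have h2 := mul_le_mul_of_nonneg_right q8 (Real.sqrt_nonneg (n : ℝ))
  linarith

/-- the small levels -/
theorem small_case (hKM : StmtKLL muc) (hKL : StmtKLL lac) {C1 C2 : ℝ} (h1 : ∀ t : ℝ, 10 ≤ |t| → DgW muc C1 t)
    (h2 : ∀ t : ℝ, 10 ≤ |t| → DgW lac C2 t) (ε : ℝ) (hε : 0 < ε) (hε4 : ε < 1 / 4) :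
    ∃ H0 : ℝ, ∀ H : ℝ, H0 ≤ H → ∀ U V : ℝ, 0 < V → V ≤ Real.log (Real.log H) ^ (1 / 4 - ε / 2) →
      ∃ A : Set ℝ, MeasurableSet A ∧ A ⊆ Set.Icc U (U + H) ∧ ENNReal.ofReal ((1 - ε) * H) ≤ volume A ∧
        ∀ t ∈ A, ∀ s : ℝ, |s - t| ≤ V → ExW muc (V / (1 + |s - t|)) s ∧ ExW lac (V / (1 + |s - t|)) s := by
  have hpi := Real.pi_pos
  have hpi3 := Real.pi_gt_three
  have hpi4 := Real.pi_lt_four
  obtain ⟨HM, kM⟩ := hKM (ε / 4) (ε / 4) (by positivity) (by positivity)
  obtain ⟨HL, kL⟩ := hKL (ε / 4) (ε / 4) (by positivity) (by positivity)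
  have t1 : Tendsto (fun H : ℝ => Real.log H) atTop atTop := Real.tendsto_log_atTop
  have t2 : Tendsto (fun H : ℝ => Real.log (Real.log H)) atTop atTop := t1.comp t1
  have c1 : ∀ᶠ H : ℝ in atTop, max (8 * (3 + 2 * |C1|)) (8 * (3 + 2 * |C2|)) ≤ Real.log (Real.log H) ^ (ε / 4) :=
    ((tendsto_rpow_atTop (by positivity)).comp t2).eventually_ge_atTop _
  have c2 : ∀ᶠ H : ℝ in atTop, 128 / ε ≤ H ^ (1 / 2 : ℝ) := (tendsto_rpow_atTop (by norm_num)).eventually_ge_atTop _
  obtain ⟨H1, k1⟩ := Filter.eventually_atTop.1 ((c1.and c2).and ((t2.eventually_ge_atTop 1).and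
    (eventually_ge_atTop (Real.exp (Real.exp 1)))))
  refine ⟨max (max HM HL) H1, fun H hH U V hV0 hVL => ?_⟩
  have hHM : HM ≤ H := ((le_max_left _ _).trans (le_max_left _ _)).trans hH
  have hHL : HL ≤ H := ((le_max_right _ _).trans (le_max_left _ _)).trans hH
  obtain ⟨⟨d1, d2⟩, d6, d7⟩ := k1 H ((le_max_right _ _).trans hH)
  have hHp : 0 < H := lt_of_lt_of_le (Real.exp_pos _) d7
  have hl1 : Real.exp 1 ≤ Real.log H := by
    rw [← Real.log_exp (Real.exp 1)]
    exact Real.log_le_log (Real.exp_pos _) d7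
  have hl0 : 1 ≤ Real.log H := by
    have := Real.add_one_le_exp (1 : ℝ)
    linarith
  have hH1' : 1 ≤ H := by
    have := Real.log_le_sub_one_of_pos hHp
    linarith
  have m1 := kM H hHM U
  have m2 := kL H hHL U
  set L := Real.log (Real.log H) with hL
  have hL0 : 0 < L := by linarith
  have hLH : L ≤ Real.log H := by
    have q2 : Real.log (Real.log H) ≤ Real.log H - 1 := Real.log_le_sub_one_of_pos (by linarith)
    linarith
  have hsq1 : Real.log H ≤ 2 * Real.sqrt H := by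
    have q1 : Real.log (Real.sqrt H) ≤ Real.sqrt H - 1 := Real.log_le_sub_one_of_pos (Real.sqrt_pos.2 hHp)
    rw [Real.log_sqrt hHp.le] at q1
    linarith
  have hsH : 1 ≤ Real.sqrt H := by rw [Real.one_le_sqrt]; exact hH1'
  have hsH2 : Real.sqrt H * Real.sqrt H = H := Real.mul_self_sqrt hHp.le
  set X : ℝ := L ^ (1 / 4 - ε / 2) with hX
  have hX1 : 1 ≤ X := Real.one_le_rpow d6 (by linarith)
  have hXH : X ≤ 2 * Real.sqrt H := by
    refine le_trans ?_ (hLH.trans hsq1)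
    calc X ≤ L ^ (1 : ℝ) := Real.rpow_le_rpow_of_exponent_le d6 (by linarith)
      _ = L := Real.rpow_one L
  set r : ℝ := 4 * Real.pi * (Real.sqrt H + 1) with hr
  have hrX : 2 * Real.pi * (Real.sqrt H + 1) + X ≤ r := by
    rw [hr]
    nlinarith
  have hr0 : 0 ≤ r - -r := by
    have : 0 ≤ r := by positivity
    linarith
  have hrH : r - -r ≤ ε / 2 * H := by
    rw [← Real.sqrt_eq_rpow, div_le_iff₀ hε] at d2
    have q1 : r - -r ≤ 64 * Real.sqrt H := by rw [hr]; nlinarith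
    have q2 : 128 * Real.sqrt H ≤ (Real.sqrt H * ε) * Real.sqrt H := mul_le_mul_of_nonneg_right d2 (by linarith)
    have q3 : (Real.sqrt H * ε) * Real.sqrt H = ε * H := by
      rw [mul_comm (Real.sqrt H) ε, mul_assoc, hsH2]
    linarith
  have hlev : L ^ (ε / 4) * X = L ^ (1 / 4 - ε / 4) := by
    rw [hX, ← Real.rpow_add hL0]
    congr 1
    ring
  set bM : Set ℝ := {t : ℝ | U ≤ t ∧ t ≤ U + H ∧ ∀ n : ℕ, 1 ≤ n → (n : ℝ) ≤ Real.sqrt H →
    ‖Sw muc t n‖ ≤ L ^ (1 / 4 - ε / 4) * Real.sqrt n} with hbM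
  set bL : Set ℝ := {t : ℝ | U ≤ t ∧ t ≤ U + H ∧ ∀ n : ℕ, 1 ≤ n → (n : ℝ) ≤ Real.sqrt H →
    ‖Sw lac t n‖ ≤ L ^ (1 / 4 - ε / 4) * Real.sqrt n} with hbL
  set A : Set ℝ := Set.Icc U (U + H) \ (toMeasurable volume bM ∪ (toMeasurable volume bL ∪ Set.Icc (-r) r)) with hA
  refine ⟨A, ?_, Set.sdiff_subset, ?_, ?_⟩
  · exact measurableSet_Icc.diff ((measurableSet_toMeasurable _ _).union ((measurableSet_toMeasurable _ _).union measurableSet_Icc))
  · have m3 : ENNReal.ofReal H ≤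
        (ENNReal.ofReal (ε / 4 * H) + (ENNReal.ofReal (ε / 4 * H) + ENNReal.ofReal (r - -r))) + volume A := by
      calc ENNReal.ofReal H = volume (Set.Icc U (U + H)) := by
            rw [Real.volume_Icc]
            congr 1
            ring
        _ ≤ volume ((toMeasurable volume bM ∪ (toMeasurable volume bL ∪ Set.Icc (-r) r)) ∪ A) := by
            apply measure_mono
            intro t ht
            by_cases g : t ∈ toMeasurable volume bM ∪ (toMeasurable volume bL ∪ Set.Icc (-r) r)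
            · exact Or.inl g
            · exact Or.inr ⟨ht, g⟩
        _ ≤ volume (toMeasurable volume bM ∪ (toMeasurable volume bL ∪ Set.Icc (-r) r)) + volume A := measure_union_le _ _
        _ ≤ _ := by
            refine add_le_add ((measure_union_le _ _).trans (add_le_add ?_ ((measure_union_le _ _).trans (add_le_add ?_ ?_)))) le_rfl
            · rw [measure_toMeasurable]
              exact m1
            · rw [measure_toMeasurable]
              exact m2
            · rw [Real.volume_Icc]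
    rw [← ENNReal.ofReal_add (by positivity) hr0, ← ENNReal.ofReal_add (by positivity) (by positivity)] at m3
    have m5 : 0 ≤ (1 - ε) * H := mul_nonneg (by linarith) hHp.le
    have m4 : (ε / 4 * H + (ε / 4 * H + (r - -r))) + (1 - ε) * H ≤ H := by
      have : ε / 4 * H + ε / 4 * H + ε / 2 * H = ε * H := by ring
      have : (1 - ε) * H = H - ε * H := by ring
      linarith
    have m6 := (ENNReal.ofReal_le_ofReal m4).trans m3
    rw [ENNReal.ofReal_add (by positivity) m5] at m6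
    exact (ENNReal.add_le_add_iff_left ENNReal.ofReal_ne_top).1 m6
  · rintro t ⟨⟨ht1, ht2⟩, ht3⟩ s hs
    rw [Set.mem_union, Set.mem_union, not_or, not_or] at ht3
    obtain ⟨g1, g2, g3⟩ := ht3
    have g1' : t ∉ bM := fun h => g1 (subset_toMeasurable _ _ h)
    have g2' : t ∉ bL := fun h => g2 (subset_toMeasurable _ _ h)
    have g3' : r < |t| := by
      by_contra h
      exact g3 (Set.mem_Icc.2 (abs_le.1 (not_lt.1 h)))
    have hsX : |s - t| ≤ X := hs.trans hVL
    have hd0 := abs_nonneg (s - t)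
    have hmon : V / (1 + |s - t|) ≤ X / (1 + |s - t|) := div_le_div_of_nonneg_right hVL (by positivity)
    have b1 : ∃ n : ℕ, 1 ≤ n ∧ (n : ℝ) ≤ Real.sqrt H ∧ 8 * (3 + 2 * |C1|) * X * Real.sqrt n < ‖Sw muc t n‖ := by
      by_contra h
      push Not at h
      refine g1' ⟨ht1, ht2, fun n hn hnH => (h n hn hnH).trans ?_⟩
      apply mul_le_mul_of_nonneg_right _ (Real.sqrt_nonneg _)
      rw [← hlev]
      exact mul_le_mul_of_nonneg_right ((le_max_left _ _).trans d1) (by linarith)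
    have b2 : ∃ n : ℕ, 1 ≤ n ∧ (n : ℝ) ≤ Real.sqrt H ∧ 8 * (3 + 2 * |C2|) * X * Real.sqrt n < ‖Sw lac t n‖ := by
      by_contra h
      push Not at h
      refine g2' ⟨ht1, ht2, fun n hn hnH => (h n hn hnH).trans ?_⟩
      apply mul_le_mul_of_nonneg_right _ (Real.sqrt_nonneg _)
      rw [← hlev]
      exact mul_le_mul_of_nonneg_right ((le_max_right _ _).trans d1) (by linarith)
    exact ⟨exW_mono (link h1 le_rfl hX1 hH1' (hrX.trans g3'.le) b1 s hsX) hmon,
      exW_mono (link h2 le_rfl hX1 hH1' (hrX.trans g3'.le) b2 s hsX) hmon⟩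

end Pool.Agent.Helper56.LV
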